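import Mathlib

/-!
# The corner entry of thin-bezel random contingency tables is not asymptotically Gaussian

Four entries `(1,1), (1,2), (2,1), (2,2)` of the top left block can be changed by `+t, -t, -t, +t`.
If all four were close to their conjectured common centre, this resampling would spread the corner
entry over an interval much longer than the conjectured standard deviation.
-/

open Filter Topology ProbabilityTheory MeasureTheory

namespace Pool.Agent.Results.MP_2c00b8_pr.CornerNotGaussian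

/-- `⌊n^δ⌋`, the number of the first rows (and of the first columns). -/
noncomputable def heavy (δ : ℝ) (n : ℕ) : ℕ := ⌊(n : ℝ) ^ δ⌋₊

/-- The common vector of row sums and of column sums: `⌊B C n⌋` for the first `⌊n^δ⌋` indices and
`⌊C n⌋` for the remaining `n` indices. -/
noncomputable def margin (B C δ : ℝ) (n : ℕ) (i : Fin (heavy δ n + n)) : ℕ :=
  if (i : ℕ) < heavy δ n then ⌊B * C * n⌋₊ else ⌊C * n⌋₊

/-- The set `M_{n,δ}(B, C)` of the contingency tables with these row sums and column sums. -/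
def tables (B C δ : ℝ) (n : ℕ) : Set (Fin (heavy δ n + n) → Fin (heavy δ n + n) → ℕ) :=
  {a | (∀ i, ∑ j, a i j = margin B C δ n i) ∧ ∀ j, ∑ i, a i j = margin B C δ n j}

/-- The probability of the event `E` for a uniformly distributed random table in
`M_{n,δ}(B, C)`. -/
noncomputable def prob (B C δ : ℝ) (n : ℕ)
    (E : (Fin (heavy δ n + n) → Fin (heavy δ n + n) → ℕ) → Prop) : ℝ :=
  ((tables B C δ n ∩ {a | E a}).ncard : ℝ) / (tables B C δ n).ncard

/-- The top left entry of a table. -/
def corner {N : ℕ} (a : Fin N → Fin N → ℕ) : ℕ := if h : 0 < N then a ⟨0, h⟩ ⟨0, h⟩ else 0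

/-- The critical value `B_c = 1 + √(1 + 1 / C)`. -/
noncomputable def Bc (C : ℝ) : ℝ := 1 + √(1 + 1 / C)

/-- The normalised corner entry
`(X_11 - C (B - B_c) n^(1-δ)) / (n^((1-δ)/2) √(B_c C + (B_c C)^2))`. -/
noncomputable def Z (B C δ : ℝ) (n : ℕ) (a : Fin (heavy δ n + n) → Fin (heavy δ n + n) → ℕ) : ℝ :=
  ((corner a : ℝ) - C * (B - Bc C) * (n : ℝ) ^ (1 - δ)) /
    ((n : ℝ) ^ ((1 - δ) / 2) * √(Bc C * C + (Bc C * C) ^ 2))

/-! ### General tables -/

section general

variable {N : ℕ} (r c : Fin N → ℕ)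

/-- tables with row sums `r` and column sums `c` -/
def tab : Set (Fin N → Fin N → ℕ) := {a | (∀ i, ∑ j, a i j = r i) ∧ ∀ j, ∑ i, a i j = c j}

lemma tab_finite : (tab r c).Finite := by
  have h : (Set.univ.pi fun i : Fin N => Set.univ.pi fun _ : Fin N => Set.Iic (r i)).Finite :=
    Set.Finite.pi fun i => Set.Finite.pi fun _ => Set.finite_Iic _
  refine h.subset fun a ha => ?_
  simp only [Set.mem_univ_pi, Set.mem_Iic]
  intro i j
  rw [← ha.1 i]
  exact Finset.single_le_sum (f := fun j => a i j) (fun _ _ => Nat.zero_le _) (Finset.mem_univ j)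

lemma tab_nonempty (r : Fin N → ℕ) : (tab r r).Nonempty := by
  refine ⟨fun i j => if i = j then r i else 0, fun i => by simp, fun j => ?_⟩
  simp only [Finset.sum_ite_eq', Finset.mem_univ, if_true]

/-- permuting rows and columns with equal margins -/
lemma tab_perm {r c : Fin N → ℕ} {σ τ : Equiv.Perm (Fin N)} (hσ : ∀ i, r (σ i) = r i)
    (hτ : ∀ j, c (τ j) = c j) (a : Fin N → Fin N → ℕ) (ha : a ∈ tab r c) :
    (fun i j => a (σ i) (τ j)) ∈ tab r c := by
  constructor
  · intro i
    rw [← hσ i, ← ha.1 (σ i)]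
    exact Equiv.sum_comp τ (fun j => a (σ i) j)
  · intro j
    rw [← hτ j, ← ha.2 (τ j)]
    exact Equiv.sum_comp σ (fun i => a i (τ j))

lemma ncard_perm {r c : Fin N → ℕ} {σ τ : Equiv.Perm (Fin N)} (hσ : ∀ i, r (σ i) = r i)
    (hτ : ∀ j, c (τ j) = c j) (hσ' : σ * σ = 1) (hτ' : τ * τ = 1) (P : ℕ → Prop) (i j : Fin N) :
    (tab r c ∩ {a | P (a (σ i) (τ j))}).ncard = (tab r c ∩ {a | P (a i j)}).ncard := by
  have h1 : ∀ i, σ (σ i) = i := fun i => by
    rw [← Equiv.Perm.mul_apply, hσ', Equiv.Perm.one_apply]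
  have h2 : ∀ i, τ (τ i) = i := fun i => by
    rw [← Equiv.Perm.mul_apply, hτ', Equiv.Perm.one_apply]
  refine Set.ncard_congr (fun a _ => fun i j => a (σ i) (τ j)) ?_ ?_ ?_
  · intro a ha
    exact ⟨tab_perm hσ hτ a ha.1, ha.2⟩
  · intro a b _ _ hab
    funext i j
    have := congrFun (congrFun hab (σ i)) (τ j)
    simpa only [h1, h2] using this
  · intro b hb
    refine ⟨fun i j => b (σ i) (τ j), ⟨tab_perm hσ hτ b hb.1, ?_⟩, ?_⟩
    · have := hb.2
      simp only [Set.mem_ofPred_eq, h1, h2] at this ⊢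
      exact this
    · funext i j
      simp only [h1, h2]

/-- The signs of the switch. -/
def sgn (x y : Fin N) (i : Fin N) : ℤ := (if i = x then 1 else 0) - (if i = y then 1 else 0)

lemma sum_sgn (x y : Fin N) : ∑ i, sgn x y i = 0 := by
  simp [sgn, Finset.sum_sub_distrib]

/-- The switched table. -/
def sw (x y : Fin N) (s : ℤ) (a : Fin N → Fin N → ℕ) : Fin N → Fin N → ℕ :=
  fun i j => ((a i j : ℤ) + s * sgn x y i * sgn x y j).toNat

/-- all four entries lie in `[L, U]` -/
def good (x y : Fin N) (L U : ℕ) (a : Fin N → Fin N → ℕ) : Prop :=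
  (L ≤ a x x ∧ a x x ≤ U) ∧ (L ≤ a x y ∧ a x y ≤ U) ∧ (L ≤ a y x ∧ a y x ≤ U) ∧
    (L ≤ a y y ∧ a y y ≤ U)

lemma sw_coe {x y : Fin N} (hxy : x ≠ y) {L U : ℕ} {a : Fin N → Fin N → ℕ}
    (ha : good x y L U a) {s : ℤ} (hs : |s| ≤ L) (i j : Fin N) :
    ((sw x y s a i j : ℕ) : ℤ) = (a i j : ℤ) + s * sgn x y i * sgn x y j := by
  rw [sw, Int.toNat_of_nonneg]
  obtain ⟨h1, h2, h3, h4⟩ := ha
  have hs1 := abs_le.1 hs
  have hyx : y ≠ x := hxy.symm
  by_cases hi : i = x
  · subst hi
    by_cases hj : j = i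
    · subst hj
      simp only [sgn, if_true, if_neg hxy]
      omega
    · by_cases hj' : j = y
      · subst hj'
        simp only [sgn, if_true, if_neg hxy, if_neg hyx]
        omega
      · simp [sgn, hj, hj']
  · by_cases hi' : i = y
    · subst hi'
      by_cases hj : j = x
      · subst hj
        simp only [sgn, if_true, if_neg hxy, if_neg hyx]
        omega
      · by_cases hj' : j = i
        · subst hj'
          simp only [sgn, if_true, if_neg hyx]
          omega
        · simp [sgn, hj, hj']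
    · simp [sgn, hi, hi']

lemma sw_mem {x y : Fin N} (hxy : x ≠ y) {L U : ℕ} {a : Fin N → Fin N → ℕ}
    (ha : good x y L U a) {s : ℤ} (hs : |s| ≤ L) (hT : a ∈ tab r c) : sw x y s a ∈ tab r c := by
  constructor
  · intro i
    have : ((∑ j, sw x y s a i j : ℕ) : ℤ) = (r i : ℤ) := by
      rw [← hT.1 i]
      push_cast
      simp_rw [sw_coe hxy ha hs]
      rw [Finset.sum_add_distrib, ← Finset.mul_sum, sum_sgn, mul_zero, add_zero]
    exact_mod_cast this
  · intro j
    have : ((∑ i, sw x y s a i j : ℕ) : ℤ) = (c j : ℤ) := by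
      rw [← hT.2 j]
      push_cast
      simp_rw [sw_coe hxy ha hs]
      rw [Finset.sum_add_distrib, ← Finset.sum_mul, ← Finset.mul_sum, sum_sgn, mul_zero, zero_mul,
        add_zero]
    exact_mod_cast this

/-- The resampling estimate. -/
lemma resample {x y : Fin N} (hxy : x ≠ y) (L U : ℕ) :
    (tab r c ∩ {a | good x y L U a}).ncard * (2 * L + 1) ≤ (tab r c).ncard * (U - L + 1) := by
  classical
  have hTf := tab_finite r c
  have hGf : (tab r c ∩ {a | good x y L U a}).Finite := hTf.subset Set.inter_subset_left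
  rw [Set.ncard_eq_toFinset_card _ hTf, Set.ncard_eq_toFinset_card _ hGf,
    ← Finset.card_range (2 * L + 1), ← Finset.card_range (U - L + 1), ← Finset.card_product,
    ← Finset.card_product]
  have habs : ∀ t : ℕ, t < 2 * L + 1 → |((t : ℤ) - L)| ≤ L := by
    intro t ht
    rw [abs_le]; constructor <;> omega
  refine Finset.card_le_card_of_injOn
    (fun p => (sw x y ((p.2 : ℤ) - L) p.1, p.1 x x - L)) ?_ ?_
  · rintro ⟨a, t⟩ hat
    simp only [Finset.coe_product, Set.mem_prod, Finset.mem_coe, Set.Finite.mem_toFinset,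
      Finset.mem_range, Set.mem_inter_iff, Set.mem_ofPred_eq] at hat ⊢
    obtain ⟨⟨hT, hg⟩, ht⟩ := hat
    refine ⟨sw_mem r c hxy hg (habs t ht) hT, ?_⟩
    have := hg.1
    omega
  · rintro ⟨a, t⟩ hat ⟨b, u⟩ hbu hab
    simp only [Finset.coe_product, Set.mem_prod, Finset.mem_coe, Set.Finite.mem_toFinset,
      Finset.mem_range, Set.mem_inter_iff, Set.mem_ofPred_eq] at hat hbu
    obtain ⟨⟨_, hga⟩, ht⟩ := hat
    obtain ⟨⟨_, hgb⟩, hu⟩ := hbu
    simp only [Prod.mk.injEq] at hab
    obtain ⟨h1, h2⟩ := hab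
    have hxx : a x x = b x x := by
      have := hga.1
      have := hgb.1
      omega
    have e1 := sw_coe hxy hga (habs t ht)
    have e2 := sw_coe hxy hgb (habs u hu)
    have htu : t = u := by
      have e := congrFun (congrFun h1 x) x
      have f1 := e1 x x
      have f2 := e2 x x
      rw [e, f2] at f1
      simp only [sgn, if_true, if_neg hxy] at f1
      omega
    subst htu
    simp only [Prod.mk.injEq, and_true]
    funext i j
    have f1 := e1 i j
    rw [congrFun (congrFun h1 i) j, e2 i j] at f1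
    omega

/-- The corner entry is close to `A` with probability at most `3/4` plus a small error. -/
lemma corner_bound {x y : Fin N} (hxy : x ≠ y) (hr : r x = r y) (hc : c x = c y) (A b : ℝ)
    (hb : 0 ≤ b) (hbA : b < A) (hne : (tab r c).Nonempty) :
    ((tab r c ∩ {a | |((a x x : ℕ) : ℝ) - A| ≤ b}).ncard : ℝ) / (tab r c).ncard ≤
      3 / 4 + 1 / 4 * ((2 * b + 1) / (2 * (A - b) + 1)) := by
  classical
  have hTf := tab_finite r c
  have hT0 : 0 < (tab r c).ncard := (Set.ncard_pos hTf).2 hne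
  have hT0' : (0 : ℝ) < (tab r c).ncard := by exact_mod_cast hT0
  set L := ⌈A - b⌉₊ with hL
  set U := ⌊A + b⌋₊ with hU
  have hiff : ∀ m : ℕ, |(m : ℝ) - A| ≤ b ↔ (L ≤ m ∧ m ≤ U) := by
    intro m
    rw [abs_le, hL, hU, Nat.ceil_le, Nat.le_floor_iff (by linarith)]
    constructor
    · rintro ⟨h1, h2⟩; exact ⟨by linarith, by linarith⟩
    · rintro ⟨h1, h2⟩; exact ⟨by linarith, by linarith⟩
  have hres := resample r c hxy L U
  -- permutations
  have hs : ∀ {q : Fin N → ℕ}, q x = q y → ∀ i, q (Equiv.swap x y i) = q i := by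
    intro q hq i
    by_cases hi : i = x
    · subst hi; rw [Equiv.swap_apply_left, hq]
    · by_cases hi' : i = y
      · subst hi'; rw [Equiv.swap_apply_right, hq]
      · rw [Equiv.swap_apply_of_ne_of_ne hi hi']
  have hs1 : ∀ {q : Fin N → ℕ}, ∀ i, q ((1 : Equiv.Perm (Fin N)) i) = q i := fun i => rfl
  set P : ℕ → Prop := fun m => L ≤ m ∧ m ≤ U with hP
  have hsw : Equiv.swap x y * Equiv.swap x y = 1 := Equiv.swap_mul_self x y
  have e1 : (tab r c ∩ {a | P (a x y)}).ncard = (tab r c ∩ {a | P (a x x)}).ncard := by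
    have := ncard_perm (σ := 1) (τ := Equiv.swap x y) (r := r) (c := c) hs1 (hs hc) (one_mul 1)
      hsw P x x
    simpa only [Equiv.Perm.one_apply, Equiv.swap_apply_left] using this
  have e2 : (tab r c ∩ {a | P (a y x)}).ncard = (tab r c ∩ {a | P (a x x)}).ncard := by
    have := ncard_perm (σ := Equiv.swap x y) (τ := 1) (r := r) (c := c) (hs hr) hs1 hsw
      (one_mul 1) P x x
    simpa only [Equiv.Perm.one_apply, Equiv.swap_apply_left] using this
  have e3 : (tab r c ∩ {a | P (a y y)}).ncard = (tab r c ∩ {a | P (a x x)}).ncard := by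
    have := ncard_perm (σ := Equiv.swap x y) (τ := Equiv.swap x y) (r := r) (c := c) (hs hr)
      (hs hc) hsw hsw P x x
    simpa only [Equiv.swap_apply_left] using this
  have hset : (tab r c ∩ {a | |((a x x : ℕ) : ℝ) - A| ≤ b}) = tab r c ∩ {a | P (a x x)} := by
    ext a
    simp only [Set.mem_inter_iff, Set.mem_ofPred_eq, hiff, hP]
  rw [hset]
  set α := (tab r c ∩ {a | P (a x x)}).ncard with hα
  set T := tab r c with hT
  have hsub : T \ {a | good x y L U a} ⊆ (T \ {a | P (a x x)}) ∪ (T \ {a | P (a x y)}) ∪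
      (T \ {a | P (a y x)}) ∪ (T \ {a | P (a y y)}) := by
    intro a ha
    simp only [Set.mem_sdiff, Set.mem_ofPred_eq, good, Set.mem_union, hP] at ha ⊢
    tauto
  have hcard : ∀ Q : (Fin N → Fin N → ℕ) → Prop,
      (T \ {a | Q a}).ncard + (T ∩ {a | Q a}).ncard = T.ncard := by
    intro Q
    rw [add_comm, Set.ncard_inter_add_ncard_sdiff_eq_ncard _ _ hTf]
  have h1 := hcard (fun a => good x y L U a)
  have h2 := hcard (fun a => P (a x x))
  have h3 := hcard (fun a => P (a x y))
  have h4 := hcard (fun a => P (a y x))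
  have h5 := hcard (fun a => P (a y y))
  rw [e1] at h3
  rw [e2] at h4
  rw [e3] at h5
  have h6 : (T \ {a | good x y L U a}).ncard ≤ (T \ {a | P (a x x)}).ncard +
      (T \ {a | P (a x y)}).ncard + (T \ {a | P (a y x)}).ncard +
      (T \ {a | P (a y y)}).ncard := by
    refine (Set.ncard_le_ncard hsub ?_).trans ?_
    · exact ((((hTf.sdiff).union (hTf.sdiff)).union (hTf.sdiff)).union (hTf.sdiff))
    · refine (Set.ncard_union_le _ _).trans ?_
      gcongr
      refine (Set.ncard_union_le _ _).trans ?_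
      gcongr
      exact Set.ncard_union_le _ _
  set G := (T ∩ {a | good x y L U a}).ncard with hG
  have h7 : 4 * α ≤ 3 * T.ncard + G := by omega
  have hLr : A - b ≤ L := Nat.le_ceil _
  have hLr' : (0 : ℝ) < 2 * (A - b) + 1 := by linarith
  have hUL : ((U - L : ℕ) : ℝ) ≤ 2 * b := by
    rcases le_total L U with h | h
    · rw [Nat.cast_sub h]
      have : (U : ℝ) ≤ A + b := Nat.floor_le (by linarith)
      linarith
    · rw [Nat.sub_eq_zero_of_le h]
      simpa using hb
  have hres' : (G : ℝ) * (2 * (L : ℝ) + 1) ≤ T.ncard * (((U - L : ℕ) : ℝ) + 1) := by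
    exact_mod_cast hres
  have hG' : (G : ℝ) / T.ncard ≤ (2 * b + 1) / (2 * (A - b) + 1) := by
    rw [div_le_div_iff₀ hT0' hLr']
    calc (G : ℝ) * (2 * (A - b) + 1) ≤ G * (2 * (L : ℝ) + 1) := by gcongr
      _ ≤ T.ncard * (((U - L : ℕ) : ℝ) + 1) := hres'
      _ ≤ T.ncard * (2 * b + 1) := by gcongr
      _ = (2 * b + 1) * T.ncard := by ring
  have h7' : 4 * (α : ℝ) ≤ 3 * T.ncard + G := by exact_mod_cast h7
  calc (α : ℝ) / T.ncard ≤ ((3 * T.ncard + G) / 4) / T.ncard := by
        gcongr
        linarith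
    _ = 3 / 4 + 1 / 4 * ((G : ℝ) / T.ncard) := by
        field_simp
    _ ≤ _ := by gcongr

end general

lemma tables_eq (B C δ : ℝ) (n : ℕ) :
    tables B C δ n = tab (margin B C δ n) (margin B C δ n) := rfl

/-- Every set of tables is finite and nonempty, so that the uniform distribution makes sense. -/
lemma tables_finite_nonempty (B C δ : ℝ) (n : ℕ) :
    (tables B C δ n).Finite ∧ (tables B C δ n).Nonempty :=
  ⟨tab_finite _ _, tab_nonempty _⟩

lemma prob_mono (B C δ : ℝ) (n : ℕ)
    {E F : (Fin (heavy δ n + n) → Fin (heavy δ n + n) → ℕ) → Prop} (h : ∀ a, E a → F a) :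
    prob B C δ n E ≤ prob B C δ n F := by
  unfold prob
  gcongr
  · exact (tab_finite _ _).subset Set.inter_subset_left
  · exact h _

lemma Bc_pos (C : ℝ) : 0 < Bc C := by
  unfold Bc
  have := Real.sqrt_nonneg (1 + 1 / C)
  linarith

/-- The first clause: the corner entry is not concentrated at scale `n^((1-δ)/2)`. -/
lemma not_concentrated (B C δ : ℝ) (hC : 0 < C) (hB : Bc C < B) (hδ : 0 < δ) (hδ1 : δ < 1)
    (K ε : ℝ) (hε : 0 < ε) :
    ∀ᶠ n : ℕ in atTop, prob B C δ n (fun a => |Z B C δ n a| ≤ K) ≤ 3 / 4 + ε := by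
  set c : ℝ := C * (B - Bc C) with hc
  have hc0 : 0 < c := mul_pos hC (by linarith)
  set σ : ℝ := √(Bc C * C + (Bc C * C) ^ 2) with hσ
  have hσ0 : 0 < σ := by
    apply Real.sqrt_pos.2
    have := mul_pos (Bc_pos C) hC
    positivity
  set k : ℝ := |K| * σ with hk
  have hk0 : 0 ≤ k := by positivity
  have hu : Tendsto (fun n : ℕ => (n : ℝ) ^ ((1 - δ) / 2)) atTop atTop :=
    (tendsto_rpow_atTop (by linarith)).comp tendsto_natCast_atTop_atTop
  have hh : Tendsto (fun n : ℕ => (n : ℝ) ^ δ) atTop atTop :=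
    (tendsto_rpow_atTop hδ).comp tendsto_natCast_atTop_atTop
  filter_upwards [hu.eventually_ge_atTop 1, hu.eventually_gt_atTop (2 * k / c),
    hu.eventually_ge_atTop ((2 * k + 1) / (c * ε)), hh.eventually_ge_atTop 2] with n h1 h2 h3 h4
  set u : ℝ := (n : ℝ) ^ ((1 - δ) / 2) with hudef
  have hu0 : 0 < u := by linarith
  have hu2 : (n : ℝ) ^ (1 - δ) = u ^ 2 := by
    rw [hudef, ← Real.rpow_natCast, ← Real.rpow_mul (Nat.cast_nonneg n)]
    congr 1
    push_cast
    ring
  have hheavy : 2 ≤ heavy δ n := Nat.le_floor (by exact_mod_cast h4)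
  set x : Fin (heavy δ n + n) := ⟨0, by omega⟩ with hx
  set y : Fin (heavy δ n + n) := ⟨1, by omega⟩ with hy
  have hxy : x ≠ y := by
    intro h
    have := congrArg Fin.val h
    simp [hx, hy] at this
  have hm : margin B C δ n x = margin B C δ n y := by
    unfold margin
    rw [if_pos (by simp only [hx]; omega), if_pos (by simp only [hy]; omega)]
  have hbA : k * u < c * u ^ 2 := by
    rw [div_lt_iff₀ hc0] at h2
    nlinarith
  have hmain := corner_bound (margin B C δ n) (margin B C δ n) hxy hm hm (c * u ^ 2) (k * u)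
    (by positivity) hbA (tab_nonempty _)
  have hcorner : ∀ a : Fin (heavy δ n + n) → Fin (heavy δ n + n) → ℕ, corner a = a x x := by
    intro a
    unfold corner
    rw [dif_pos (by omega)]
  have hEv : ∀ a, |Z B C δ n a| ≤ K → |((a x x : ℕ) : ℝ) - c * u ^ 2| ≤ k * u := by
    intro a ha
    unfold Z at ha
    rw [hcorner, hu2, ← hc, ← hσ, ← hudef, abs_div, abs_of_pos (mul_pos hu0 hσ0),
      div_le_iff₀ (mul_pos hu0 hσ0)] at ha
    calc |((a x x : ℕ) : ℝ) - c * u ^ 2| ≤ K * (u * σ) := ha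
      _ ≤ |K| * (u * σ) := by gcongr; exact le_abs_self K
      _ = k * u := by rw [hk]; ring
  refine (prob_mono B C δ n hEv).trans (hmain.trans ?_)
  have hq : (2 * (k * u) + 1) / (2 * (c * u ^ 2 - k * u) + 1) ≤ ε := by
    have hden : c * u ^ 2 ≤ 2 * (c * u ^ 2 - k * u) + 1 := by
      rw [div_lt_iff₀ hc0] at h2
      nlinarith
    have hcu : 0 < c * u ^ 2 := by positivity
    calc (2 * (k * u) + 1) / (2 * (c * u ^ 2 - k * u) + 1) ≤ ((2 * k + 1) * u) / (c * u ^ 2) := by
          gcongr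
          nlinarith
      _ = (2 * k + 1) / (c * u) := by field_simp
      _ ≤ ε := by
          rw [div_le_iff₀ (by positivity)]
          rw [div_le_iff₀ (by positivity)] at h3
          nlinarith
  nlinarith

/-- **The corner entry is not asymptotically Gaussian.** Let `C > 0`, `B > B_c` and `0 < δ < 1`
(in particular `0 < δ < 1/2`). For every `K` the uniformly distributed random table in
`M_{n,δ}(B, C)` satisfies `limsup P(|Z_n| ≤ K) ≤ 3/4`, where `Z_n` is the normalised corner entry
`(X_11 - C (B - B_c) n^(1-δ)) / (n^((1-δ)/2) √(B_c C + (B_c C)^2))`; consequently `Z_n` does not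
converge in distribution to the standard normal law. -/
theorem result (B C δ : ℝ) (hC : 0 < C) (hB : Bc C < B) (hδ : 0 < δ) (hδ1 : δ < 1) :
    (∀ K ε : ℝ, 0 < ε →
      ∀ᶠ n : ℕ in atTop, prob B C δ n (fun a => |Z B C δ n a| ≤ K) ≤ 3 / 4 + ε) ∧
    ¬ ∀ x : ℝ, Tendsto (fun n : ℕ => prob B C δ n (fun a => Z B C δ n a ≤ x)) atTop
      (𝓝 (cdf (gaussianReal 0 1) x)) := by
  refine ⟨fun K ε hε => not_concentrated B C δ hC hB hδ hδ1 K ε hε, fun hcon => ?_⟩
  -- find `K` with `Φ(K) - Φ(-K) > 7/8`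
  have hlim : Tendsto (fun K : ℝ => cdf (gaussianReal 0 1) K - cdf (gaussianReal 0 1) (-K)) atTop
      (𝓝 (1 - 0)) :=
    (tendsto_cdf_atTop _).sub ((tendsto_cdf_atBot _).comp tendsto_neg_atTop_atBot)
  obtain ⟨K, hK⟩ := (hlim.eventually (lt_mem_nhds (show (15 / 16 : ℝ) < 1 - 0 by norm_num))).exists
  have h1 := (hcon K).sub (hcon (-K))
  have h2 := h1.eventually (lt_mem_nhds hK)
  have h3 := not_concentrated B C δ hC hB hδ hδ1 |K| (1 / 16) (by norm_num)
  obtain ⟨n, h4, h5⟩ := (h2.and h3).exists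
  have h6 : prob B C δ n (fun a => Z B C δ n a ≤ K) ≤
      prob B C δ n (fun a => Z B C δ n a ≤ -K) + prob B C δ n (fun a => |Z B C δ n a| ≤ |K|) := by
    unfold prob
    rw [← add_div]
    gcongr
    have hf := tab_finite (margin B C δ n) (margin B C δ n)
    have : (tables B C δ n ∩ {a | Z B C δ n a ≤ K}) ⊆ (tables B C δ n ∩ {a | Z B C δ n a ≤ -K}) ∪
        (tables B C δ n ∩ {a | |Z B C δ n a| ≤ |K|}) := by
      rintro a ⟨ha, ha'⟩
      by_cases h : Z B C δ n a ≤ -K
      · exact Or.inl ⟨ha, h⟩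
      · refine Or.inr ⟨ha, ?_⟩
        simp only [Set.mem_ofPred_eq] at ha' ⊢
        push Not at h
        rw [abs_le]
        constructor
        · have := neg_abs_le K
          have := le_abs_self K
          by_contra hcc
          push Not at hcc
          have h8 : Z B C δ n a ≤ K := ha'
          rcases le_total 0 K with h0 | h0
          · rw [abs_of_nonneg h0] at hcc; linarith
          · rw [abs_of_nonpos h0] at hcc
            linarith
        · exact ha'.trans (le_abs_self K)
    have h7 := (Set.ncard_le_ncard this ((hf.subset Set.inter_subset_left).union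
      (hf.subset Set.inter_subset_left))).trans (Set.ncard_union_le _ _)
    exact_mod_cast h7
  linarith

end Pool.Agent.Results.MP_2c00b8_pr.CornerNotGaussian
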